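import Pool.Agent.Helper15.GS.GoalsE
import Pool.Agent.Helper32.HS.PARF

/-! # GS, packet GPF: facts on the projector -/

open Complex Metric Set Filter Topology MeasureTheory
open scoped ContDiff ComplexConjugate ComplexOrder Manifold Matrix

namespace Pool.Agent.Helper70.GS

open Pool.Agent.Helper95.Lin Pool.Agent.Helper16.Abund Pool.Agent.Helper92.Orb
  Pool.Agent.Helper10.SP Pool.Agent.Helper95.RK Pool.Agent.Helper57.HS
  Pool.Agent.Helper15.HS Pool.Agent.Helper15.GS

universe u v

/-- A projector of full trace is the identity. -/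
theorem proj_eq_one {n : ℕ} {P : Matrix (Fin n) (Fin n) ℂ} (hPP : P * P = P)
    (htr : Matrix.trace P = n) : P = 1 := by
  set e : (Fin n → ℂ) →ₗ[ℂ] (Fin n → ℂ) := Matrix.toLin' (1 - P) with he
  have hi : IsIdempotentElem e := by
    unfold IsIdempotentElem
    rw [he]
    change Matrix.toLin' (1 - P) ∘ₗ Matrix.toLin' (1 - P) = _
    rw [← Matrix.toLin'_mul]
    congr 1
    simp only [Matrix.mul_sub, Matrix.sub_mul, hPP, Matrix.mul_one, Matrix.one_mul]
    abel
  have ht : LinearMap.trace ℂ (Fin n → ℂ) e = 0 := by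
    rw [he, Matrix.trace_toLin'_eq, Matrix.trace_sub, Matrix.trace_one, Fintype.card_fin, htr,
      sub_self]
  have h0 := (LinearMap.IsIdempotentElem.trace_eq_zero_iff hi).1 ht
  have h1 : (1 : Matrix (Fin n) (Fin n) ℂ) - P = 0 := by
    rw [he] at h0
    exact Matrix.toLin'.injective (by rw [h0, map_zero])
  exact (sub_eq_zero.1 h1).symm

theorem gpf (hCSY : S_CSY) (hPARP : S_PARP) (hGRBC : S_GRBC) : S_GPF.{u} := by
  intro n T G _ R H h hD k P hP x hx
  have hT : IsOpen T := hD.ket.et.isOpen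
  have hhp := hD.her.posDef
  have hhs := hD.her.smooth
  obtain ⟨-, hg⟩ := hGRBC T hT h hhp hhs hD.gsn
  have hpar := hPARP T hT h P hhp hhs hP.holo hP.herm x hx
  have hPP := hP.proj x hx
  have hPh := hP.herm x hx
  refine ⟨(hg x hx).2.2, ?_, fun l => (hpar l).2.1, ?_, ?_, ?_⟩
  · have e : P x * h x = P x * h x * (P x)ᴴ := by
      rw [Matrix.mul_assoc, ← hPh, ← Matrix.mul_assoc, hPP]
    rw [e]
    exact (hhp x hx).posSemidef.mul_mul_conjTranspose_same (P x)
  · intro l m
    have e : cdbM m (Gam h l) x * (P x * h x) = P x * (cdbM m (Gam h l) x * h x) := by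
      rw [← Matrix.mul_assoc, (hpar l).2.2 m, Matrix.mul_assoc]
    rw [e]
    ext i j
    rw [Matrix.mul_apply, Matrix.zero_apply]
    have h0 := hP.null x hx i j l m
    have h1 : ∀ p, P x i p * (cdbM m (Gam h l) x * h x) p j = -(P x i p * crv h x p j l m) := by
      intro p
      rw [(hCSY T hT h hhp hhs x hx).1 p j l m]
      ring
    rw [Finset.sum_congr rfl fun p _ => h1 p, Finset.sum_neg_distrib, h0, neg_zero]
  · intro t
    refine ⟨?_, Pool.Agent.Helper32.HS.proj_det (hhp x hx) hPP hPh (hP.tr x hx) t⟩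
    have e1 : P x * (P x * h x) = P x * h x := by rw [← Matrix.mul_assoc, hPP]
    rw [Matrix.add_mul, Matrix.one_mul, Matrix.smul_mul, Matrix.mul_add, hP.ric x hx, zero_add,
      e1, add_smul, one_smul]
    abel
  · intro hk
    refine proj_eq_one hPP ?_
    rw [hP.tr x hx, hk]

end Pool.Agent.Helper70.GS
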